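import Pool.Agent.H58.LE.LimL2
import Pool.Agent.H87.LE.A11a_Tile

open MeasureTheory Complex Set Filter Topology
open scoped ContDiff Laplacian InnerProductSpace

namespace Pool.Agent.H87.LE

/-! # The explicit elements of `H` -/

open Pool.Agent.H20.LE (sg SS_ne sg_loc Fq phi0_eq psi11_eq SS SS_contDiff Co_contDiff sin_pi_ne w0_eq
  grad_congr grad_const_mul)

theorem b05_line (a b c : ℝ) (hab : a ≠ 0 ∨ b ≠ 0) :
    volume {z : ℂ | a * z.re + b * z.im = c} = 0 := by
  have hpos : 0 < a ^ 2 + b ^ 2 := by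
    rcases hab with h | h <;> positivity
  set p : ℂ := ⟨c / (a ^ 2 + b ^ 2) * a, c / (a ^ 2 + b ^ 2) * b⟩ with hp
  have h1 : {z : ℂ | a * z.re + b * z.im = c} =
      (fun z => z + -p) ⁻¹' {z : ℂ | a * z.re + b * z.im = 0} := by
    ext z
    simp only [Set.mem_ofPred_eq, mem_preimage, add_re, add_im, neg_re, neg_im, hp]
    have : a * (z.re + -(c / (a ^ 2 + b ^ 2) * a)) + b * (z.im + -(c / (a ^ 2 + b ^ 2) * b)) =
        a * z.re + b * z.im - c := by
      field_simp
      ring
    rw [this, sub_eq_zero]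
  rw [h1, measure_preimage_add_right]
  exact a11a_line a b hab

/-- the closed square -/
def b05_K : Set ℂ := {z | |z.re| ≤ 1 ∧ |z.im| ≤ 1}

theorem b05_K_compact : IsCompact b05_K := by
  refine Metric.isCompact_of_isClosed_isBounded ?_ ?_
  · have h1 : Continuous fun z : ℂ => |z.re| := continuous_re.abs
    have h2 : Continuous fun z : ℂ => |z.im| := continuous_im.abs
    exact (isClosed_le h1 continuous_const).inter (isClosed_le h2 continuous_const)
  · refine (Metric.isBounded_closedBall (x := (0 : ℂ)) (r := 2)).subset ?_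
    intro z hz
    rw [mem_closedBall_zero_iff]
    have h := Complex.norm_le_abs_re_add_abs_im z
    have h1 : |z.re| ≤ 1 := hz.1
    have h2 : |z.im| ≤ 1 := hz.2
    linarith

theorem b05_elem {Ω : Set ℂ} (hΩ : IsOpen Ω) (hD : Ω ⊆ DD) (hI : ∀ z, I * z ∈ Ω ↔ z ∈ Ω)
    {F f σ : ℂ → ℝ} (hF : ContDiff ℝ ∞ F) (hσ : ∀ z ∈ Ω, ∀ᶠ w in 𝓝 z, σ w = σ z)
    (hσ1 : ∀ z ∈ Ω, |σ z| = 1) (hf : ∀ z, f z = σ z * F z) (hR : Rot f) (hfc : Continuous f)
    (hoff : ∀ z ∈ b05_K, z ∉ Ω → f z = 0) (h0 : volume {z ∈ Ω | f z = 0} = 0) :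
    ∃ x ∈ V Ω, fn x =ᵐ[volume] indicator Ω f ∧ gr x =ᵐ[volume] indicator Ω (gradient f) := by
  have hdF : Differentiable ℝ F := hF.differentiable (by simp)
  have hloc : ∀ z ∈ Ω, f =ᶠ[𝓝 z] fun w => σ z * F w := by
    intro z hz
    filter_upwards [hσ z hz] with w hw
    rw [hf w, hw]
  have hg : ∀ z ∈ Ω, ‖gradient f z‖ = ‖gradient F z‖ := by
    intro z hz
    rw [grad_congr (hloc z hz), grad_const_mul (hdF z), norm_mul, Complex.norm_real,
      Real.norm_eq_abs, hσ1 z hz, one_mul]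
  have hFg : Continuous (gradient F) := by
    have h1 : Continuous (fderiv ℝ F) := hF.continuous_fderiv (by simp)
    exact (InnerProductSpace.toDual ℝ ℂ).symm.continuous.comp h1
  have hsub : Ω ⊆ b05_K := fun z hz => ⟨(hD hz).1.le, (hD hz).2.le⟩
  have k1 : ContDiffOn ℝ ∞ f Ω := by
    intro z hz
    exact ((contDiff_const.mul hF).contDiffAt.congr_of_eventuallyEq (hloc z hz)).contDiffWithinAt
  have k2 : ∀ ε > 0, IsCompact {z ∈ Ω | ε ≤ |f z|} := by
    intro ε hε
    have : {z ∈ Ω | ε ≤ |f z|} = b05_K ∩ {z | ε ≤ |f z|} := by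
      ext z
      constructor
      · rintro ⟨h1, h2⟩
        exact ⟨hsub h1, h2⟩
      · rintro ⟨h1, h2⟩
        have h2' : ε ≤ |f z| := h2
        refine ⟨?_, h2⟩
        by_contra h
        rw [hoff z h1 h, abs_zero] at h2'
        linarith
    rw [this]
    exact b05_K_compact.inter_right (isClosed_le continuous_const hfc.abs)
  have k3 : IntegrableOn (fun z => ‖gradient f z‖ ^ 2) Ω := by
    have h1 : IntegrableOn (fun z => ‖gradient F z‖ ^ 2) Ω :=
      ((hFg.norm.pow 2).continuousOn.integrableOn_compact b05_K_compact).mono_set hsub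
    exact h1.congr_fun (fun z hz => by simp only; rw [hg z hz]) hΩ.measurableSet
  obtain ⟨T, hT1, hT2, hT3⟩ := vanish_lim hΩ hD k1 k2 k3 h0
  have hW : W1 Ω (indicator Ω f) (indicator Ω (gradient f)) := by
    refine ⟨_, fun n => ⟨hT2 n, ?_⟩, hT3⟩
    intro z
    by_cases hz : z ∈ Ω
    · rw [indicator_of_mem hz, indicator_of_mem ((hI z).2 hz), hR z]
    · rw [indicator_of_notMem hz, indicator_of_notMem (fun h => hz ((hI z).1 h))]
  exact V_mk hD hW

theorem b05_memLp_DD {f : ℂ → ℝ} (hfc : Continuous f) : MemLp f 2 (volume.restrict DD) := by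
  rw [← memLp_indicator_iff_restrict b05_isOpen_DD.measurableSet]
  exact b05_ind_memLp hfc

theorem b05_weak {Ω : Set ℂ} (hΩ : IsOpen Ω) (hD : Ω ⊆ DD) {x : HH} {f : ℂ → ℝ}
    (hg : gr x =ᵐ[volume] indicator Ω (gradient f)) (hfc : Continuous f) {l : ℝ}
    (hw : ∀ φ, Tst Ω φ → ∫ z, inner ℝ (gradient f z) (gradient φ z) = l * ∫ z, f z * φ z) :
    ∀ y ∈ V Ω, inner ℝ x y = l * ∫ z in DD, f z * fn y z := by
  have hE : EqnS Ω (gr x) (fun z => l * f z) := by
    intro ζ hζ _
    have h1 : ∫ z, inner ℝ (gr x z) (gradient ζ z) =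
        ∫ z, inner ℝ (gradient f z) (gradient ζ z) := by
      apply integral_congr_ae
      filter_upwards [hg] with z hz
      rw [hz]
      by_cases h : z ∈ Ω
      · rw [indicator_of_mem h]
      · have h2 : ζ =ᶠ[𝓝 z] fun _ => 0 :=
          notMem_tsupport_iff_eventuallyEq.1 (fun h' => h (hζ.2.2 h'))
        rw [h2.gradient_eq, gradient_fun_const, inner_zero_right, inner_zero_right]
    rw [h1, hw ζ hζ, ← integral_const_mul]
    congr 1; funext z; ring
  intro y hy
  rw [(eqn_iff hΩ hD x ((b05_memLp_DD hfc).const_mul l)).1 hE y hy, ← integral_const_mul]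
  have h1 : ∫ z in DD, l * (f z * fn y z) = ∫ z, l * (f z * fn y z) := by
    apply setIntegral_eq_integral_of_ae_compl_eq_zero
    filter_upwards [fn_off y] with z hz hz'
    rw [hz hz']; simp
  rw [h1]
  congr 1; funext z; ring

/-! ## `w0` -/

theorem b05_I_DD (z : ℂ) : I * z ∈ DD ↔ z ∈ DD := by
  have h1 : (I * z).re = -z.im := by simp
  have h2 : (I * z).im = z.re := by simp
  simp only [DD, Set.mem_ofPred_eq, h1, h2, abs_neg]
  exact And.comm

theorem b05_I_Om (z : ℂ) : I * z ∈ DD \ Axs ↔ z ∈ DD \ Axs := by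
  rw [Set.mem_sdiff, Set.mem_sdiff, b05_I_DD]
  have h1 : (I * z).re = -z.im := by simp
  have h2 : (I * z).im = z.re := by simp
  have : I * z ∈ Axs ↔ z ∈ Axs := by
    simp only [Axs, Set.mem_ofPred_eq, h1, h2]
    rw [neg_mul, neg_eq_zero, mul_comm]
  rw [this]

theorem b05_sin_zero {x : ℝ} (h : |x| = 1) : Real.sin (Real.pi * x) = 0 := by
  rcases (abs_eq zero_le_one).1 h with h | h <;> rw [h] <;> simp

theorem b05_psi_off {z : ℂ} (h1 : z ∈ b05_K) (h2 : z ∉ DD \ Axs) :
    Real.sin (Real.pi * z.re) * Real.sin (Real.pi * z.im) = 0 := by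
  by_cases hA : z.re * z.im = 0
  · rcases mul_eq_zero.1 hA with h | h <;> rw [h] <;> simp
  · have h3 : z ∉ DD := fun h => h2 ⟨h, hA⟩
    have h4 : |z.re| = 1 ∨ |z.im| = 1 := by
      by_contra hcon
      push Not at hcon
      exact h3 ⟨lt_of_le_of_ne h1.1 hcon.1, lt_of_le_of_ne h1.2 hcon.2⟩
    rcases h4 with h | h
    · rw [b05_sin_zero h, zero_mul]
    · rw [b05_sin_zero h, mul_zero]

theorem b05_w0_fac (z : ℂ) : w0 z = 2 * (Real.sin (Real.pi * z.re) * Real.sin (Real.pi * z.im)) *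
    (Real.cos (Real.pi * z.im) - Real.cos (Real.pi * z.re)) := by
  unfold w0
  rw [b05_sin_two, b05_sin_two]
  ring

theorem b05_w0_off {z : ℂ} (h1 : z ∈ b05_K) (h2 : z ∉ DD) : w0 z = 0 := by
  rw [b05_w0_fac, b05_psi_off h1 (fun h => h2 h.1)]
  simp

theorem b05_w0_zero : volume {z ∈ DD | w0 z = 0} = 0 := by
  have h1 := b05_line 1 0 0 (Or.inl one_ne_zero)
  have h2 := b05_line 0 1 0 (Or.inr one_ne_zero)
  have h3 := b05_line 1 1 0 (Or.inr one_ne_zero)
  have h4 := b05_line 1 (-1) 0 (Or.inl one_ne_zero)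
  refine measure_mono_null ?_ (measure_union_null (measure_union_null (measure_union_null h1 h2) h3) h4)
  rintro z ⟨hz, h0⟩
  rw [b05_w0_fac] at h0
  have hz1 := abs_lt.1 hz.1
  have hz2 := abs_lt.1 hz.2
  rcases mul_eq_zero.1 h0 with h | h
  · by_cases hr : z.re = 0
    · left; left; left
      simp [hr]
    · by_cases hi : z.im = 0
      · left; left; right
        simp [hi]
      · exfalso
        have := mul_ne_zero (sin_pi_ne hr hz.1) (sin_pi_ne hi hz.2)
        apply this
        linarith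
  · rw [Real.cos_sub_cos] at h
    have h5 : Real.sin ((Real.pi * z.im + Real.pi * z.re) / 2) = 0 ∨
        Real.sin ((Real.pi * z.im - Real.pi * z.re) / 2) = 0 := by
      rcases mul_eq_zero.1 h with h | h
      · left
        rcases mul_eq_zero.1 h with h | h
        · norm_num at h
        · exact h
      · exact Or.inr h
    rcases h5 with h | h
    · left; right
      have h6 : Real.sin (Real.pi * ((z.im + z.re) / 2)) = 0 := by
        rw [← h]; congr 1; ring
      by_contra hne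
      have h7 : (z.im + z.re) / 2 ≠ 0 := fun h8 => hne (by
        show 1 * z.re + 1 * z.im = 0
        linarith)
      exact sin_pi_ne h7 (by rw [abs_lt]; constructor <;> linarith) h6
    · right
      have h6 : Real.sin (Real.pi * ((z.im - z.re) / 2)) = 0 := by
        rw [← h]; congr 1; ring
      by_contra hne
      have h7 : (z.im - z.re) / 2 ≠ 0 := fun h8 => hne (by
        show 1 * z.re + -1 * z.im = 0
        linarith)
      exact sin_pi_ne h7 (by rw [abs_lt]; constructor <;> linarith) h6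

theorem b05_phi0_zero : volume {z ∈ DD \ Axs | phi0 z = 0} = 0 := by
  have h1 := b05_line 1 1 1 (Or.inl one_ne_zero)
  have h2 := b05_line 1 1 (-1) (Or.inr one_ne_zero)
  have h3 := b05_line 1 (-1) 1 (Or.inl one_ne_zero)
  have h4 := b05_line 1 (-1) (-1) (Or.inl one_ne_zero)
  refine measure_mono_null ?_ (measure_union_null (measure_union_null (measure_union_null h1 h2) h3) h4)
  rintro z ⟨hz, h0⟩
  have hz1 := abs_lt.1 hz.1.1
  have hz2 := abs_lt.1 hz.1.2
  have hne := SS_ne hz
  unfold phi0 at h0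
  have h5 : Real.cos (Real.pi * z.re) + Real.cos (Real.pi * z.im) = 0 := by
    rcases mul_eq_zero.1 h0 with h | h
    · exfalso
      rcases mul_eq_zero.1 h with h | h
      · norm_num at h
      · exact hne (abs_eq_zero.1 h)
    · exact h
  -- cos (pi s / 2) = 0 with |s| < 2 gives s = 1 or s = -1
  have key : ∀ s : ℝ, -2 < s → s < 2 → Real.cos (Real.pi * s / 2) = 0 → s = 1 ∨ s = -1 := by
    intro s ha hb hs
    by_contra hcon
    push Not at hcon
    rcases lt_or_ge s 0 with hneg | hpos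
    · have e1 : Real.cos (Real.pi * s / 2) = Real.sin (Real.pi * ((s + 1) / 2)) := by
        rw [← Real.cos_pi_div_two_sub, ← Real.cos_neg]
        congr 1
        ring
      rw [e1] at hs
      exact sin_pi_ne (fun h => hcon.2 (by linarith)) (by rw [abs_lt]; constructor <;> linarith) hs
    · have e1 : Real.cos (Real.pi * s / 2) = Real.sin (Real.pi * ((1 - s) / 2)) := by
        rw [← Real.cos_pi_div_two_sub]
        congr 1
        ring
      rw [e1] at hs
      exact sin_pi_ne (fun h => hcon.1 (by linarith)) (by rw [abs_lt]; constructor <;> linarith) hs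
  rw [Real.cos_add_cos] at h5
  have h6 : Real.cos (Real.pi * (z.re + z.im) / 2) = 0 ∨
      Real.cos (Real.pi * (z.re - z.im) / 2) = 0 := by
    rcases mul_eq_zero.1 h5 with h | h
    · left
      rcases mul_eq_zero.1 h with h | h
      · norm_num at h
      · rw [← h]; congr 1; ring
    · right
      rw [← h]; congr 1; ring
  rcases h6 with h | h
  · rcases key _ (by linarith) (by linarith) h with h | h
    · left; left; left
      show 1 * z.re + 1 * z.im = 1
      linarith
    · left; left; right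
      show 1 * z.re + 1 * z.im = -1
      linarith
  · rcases key _ (by linarith) (by linarith) h with h | h
    · left; right
      show 1 * z.re + -1 * z.im = 1
      linarith
    · right
      show 1 * z.re + -1 * z.im = -1
      linarith

theorem b05_conj_DD (z : ℂ) : starRingEnd ℂ z ∈ DD ↔ z ∈ DD := by
  simp [DD]

theorem b05_exists_w0H : ∃ w : HH, (∀ᵐ z, fn w z = indicator DD w0 z) ∧
    (∀ᵐ z, gr w z = indicator DD (gradient w0) z) ∧ ev w = 0 ∧
    ∀ y : HH, inner ℝ w y = 5 * Real.pi ^ 2 * ∫ z in DD, w0 z * fn y z := by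
  have hs : ContDiff ℝ ∞ w0 := by
    rw [w0_eq]; exact Co_contDiff _ _ _ _ _ _
  obtain ⟨x, hx, h1, h2⟩ := b05_elem b05_isOpen_DD subset_rfl b05_I_DD (F := w0) (f := w0)
    (σ := fun _ => 1) hs (fun z _ => Eventually.of_forall fun _ => rfl) (fun _ _ => abs_one)
    (fun z => (one_mul _).symm) b05_w_rot b05_w_cont (fun z h h' => b05_w0_off h h') b05_w0_zero
  refine ⟨x, h1, h2, ?_, ?_⟩
  · rw [ev_zero_iff]
    have hq : Measure.QuasiMeasurePreserving (fun z : ℂ => starRingEnd ℂ z) volume volume :=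
      (conjLIE.measurePreserving).quasiMeasurePreserving
    filter_upwards [h1, hq.ae h1] with z h3 h4
    rw [h3, h4]
    by_cases hz : z ∈ DD
    · rw [indicator_of_mem hz, indicator_of_mem ((b05_conj_DD z).2 hz)]
      unfold w0
      simp only [conj_re, conj_im, mul_neg, Real.sin_neg]
      ring
    · rw [indicator_of_notMem hz, indicator_of_notMem (fun h => hz ((b05_conj_DD z).1 h))]
      simp
  · intro y
    exact b05_weak b05_isOpen_DD subset_rfl h2 b05_w_cont (fun φ hφ => w0_weak hφ) y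
      (by rw [V_top]; trivial)

/-! ## normalised elements -/

theorem b05_isOpen_Om : IsOpen (DD \ Axs) := b05_isOpen_DD.sdiff b05_isClosed_Axs

theorem b05_null_Axs : volume Axs = 0 := by
  have h1 := b05_line 1 0 0 (Or.inl one_ne_zero)
  have h2 := b05_line 0 1 0 (Or.inr one_ne_zero)
  refine measure_mono_null ?_ (measure_union_null h1 h2)
  intro z hz
  rcases mul_eq_zero.1 (show z.re * z.im = 0 from hz) with h | h
  · left; simp [h]
  · right; simp [h]

theorem b05_norm_elem {F f : ℂ → ℝ} (hF : ContDiff ℝ ∞ F) (hf : ∀ z, f z = sg z * F z)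
    (hR : Rot f) (hC : Cnj f) (hfc : Continuous f)
    (hoff : ∀ z ∈ b05_K, z ∉ DD \ Axs → f z = 0) (h0 : volume {z ∈ DD \ Axs | f z = 0} = 0) {l : ℝ}
    (hw : ∀ φ, Tst (DD \ Axs) φ →
      ∫ z, inner ℝ (gradient f z) (gradient φ z) = l * ∫ z, f z * φ z) :
    ∃ (e : HH) (c : ℝ), 0 < c ∧ ‖e‖ = 1 ∧
    (∀ᵐ z, fn e z = indicator DD (fun z => c * f z) z) ∧
    (∀ᵐ z, gr e z = indicator DD (fun z => c • gradient f z) z) ∧
    e ∈ V (DD \ Axs) ∧ ev e = e ∧
    ∀ y ∈ V (DD \ Axs), inner ℝ e y = l * ∫ z in DD, fn e z * fn y z := by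
  have hsg : ∀ z ∈ DD \ Axs, |sg z| = 1 := by
    intro z hz
    have h := SS_ne hz
    unfold sg
    rcases lt_or_gt_of_ne h with h | h
    · rw [sign_neg h]; simp
    · rw [sign_pos h]; simp
  obtain ⟨x, hx, h1, h2⟩ := b05_elem b05_isOpen_Om Set.sdiff_subset b05_I_Om hF
    (fun z hz => sg_loc (SS_ne hz)) hsg hf hR hfc hoff h0
  have hne : x ≠ 0 := by
    intro hx0
    have h3 : ∀ᵐ z : ℂ, z ∉ DD \ Axs := by
      have h4 : ∀ᵐ z : ℂ, fn x z = 0 := by
        rw [hx0, map_zero]
        exact Lp.coeFn_zero _ _ _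
      have h5 : ∀ᵐ z : ℂ, z ∉ {z ∈ DD \ Axs | f z = 0} := measure_eq_zero_iff_ae_notMem.1 h0
      filter_upwards [h1, h4, h5] with z a b c hz
      rw [b, indicator_of_mem hz] at a
      exact c ⟨hz, a.symm⟩
    have h6 : volume (DD \ Axs) = 0 := measure_eq_zero_iff_ae_notMem.2 h3
    have h7 : (DD \ Axs).Nonempty := by
      refine ⟨⟨1 / 2, 1 / 2⟩, ⟨?_, ?_⟩, ?_⟩
      · show |(1 / 2 : ℝ)| < 1
        rw [abs_lt]; constructor <;> norm_num
      · show |(1 / 2 : ℝ)| < 1
        rw [abs_lt]; constructor <;> norm_num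
      · show ¬ ((1 / 2 : ℝ) * (1 / 2) = 0)
        norm_num
    exact (b05_isOpen_Om.measure_pos volume h7).ne' h6
  have hn : 0 < ‖x‖ := norm_pos_iff.2 hne
  set c := ‖x‖⁻¹ with hc
  have hcp : 0 < c := inv_pos.2 hn
  have hax : ∀ᵐ z : ℂ, z ∉ Axs := measure_eq_zero_iff_ae_notMem.1 b05_null_Axs
  have f1 : ∀ᵐ z, fn (c • x) z = indicator DD (fun z => c * f z) z := by
    rw [map_smul]
    filter_upwards [Lp.coeFn_smul c (fn x), h1, hax] with z a b d
    rw [a, Pi.smul_apply, b, smul_eq_mul]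
    by_cases hz : z ∈ DD
    · rw [indicator_of_mem hz, indicator_of_mem (show z ∈ DD \ Axs from ⟨hz, d⟩)]
    · rw [indicator_of_notMem hz, indicator_of_notMem (fun h => hz h.1), mul_zero]
  refine ⟨c • x, c, hcp, ?_, f1, ?_, (V (DD \ Axs)).smul_mem c hx, ?_, ?_⟩
  · rw [norm_smul, Real.norm_eq_abs, abs_of_pos hcp, hc]
    exact inv_mul_cancel₀ hn.ne'
  · have g1 : gr (c • x) =ᵐ[volume] c • gr x := Lp.coeFn_smul c (toLC x)
    filter_upwards [g1, h2, hax] with z a b d
    rw [a, Pi.smul_apply, b]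
    by_cases hz : z ∈ DD
    · rw [indicator_of_mem hz, indicator_of_mem (show z ∈ DD \ Axs from ⟨hz, d⟩)]
    · rw [indicator_of_notMem hz, indicator_of_notMem (fun h => hz h.1), smul_zero]
  · rw [ev_self_iff]
    have hq : Measure.QuasiMeasurePreserving (fun z : ℂ => starRingEnd ℂ z) volume volume :=
      (conjLIE.measurePreserving).quasiMeasurePreserving
    filter_upwards [f1, hq.ae f1] with z h3 h4
    rw [h3, h4]
    by_cases hz : z ∈ DD
    · rw [indicator_of_mem hz, indicator_of_mem ((b05_conj_DD z).2 hz), hC z]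
    · rw [indicator_of_notMem hz, indicator_of_notMem (fun h => hz ((b05_conj_DD z).1 h))]
  · intro y hy
    have h3 : inner ℝ (c • x) y = c * inner ℝ x y := real_inner_smul_left x y c
    rw [h3, b05_weak b05_isOpen_Om Set.sdiff_subset h2 hfc hw y hy]
    have h4 : ∫ z in DD, fn (c • x) z * fn y z = c * ∫ z in DD, f z * fn y z := by
      rw [← integral_const_mul]
      apply integral_congr_ae
      filter_upwards [ae_restrict_of_ae f1, ae_restrict_mem b05_isOpen_DD.measurableSet] with z a b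
      rw [a, indicator_of_mem b]
      ring
    rw [h4]
    ring

theorem b05_exists_e1 : ∃ (e : HH) (c : ℝ), 0 < c ∧ ‖e‖ = 1 ∧
    (∀ᵐ z, fn e z = indicator DD (fun z => c * psi11 z) z) ∧
    (∀ᵐ z, gr e z = indicator DD (fun z => c • gradient psi11 z) z) ∧
    e ∈ V (DD \ Axs) ∧ ev e = e ∧
    ∀ y ∈ V (DD \ Axs), inner ℝ e y = 2 * Real.pi ^ 2 * ∫ z in DD, fn e z * fn y z := by
  refine b05_norm_elem (SS_contDiff _ _) psi11_eq b05_psi_rot ?_ b05_psi_cont ?_ ?_
    (fun φ hφ => psi11_weak hφ)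
  · intro z
    unfold psi11
    simp only [conj_re, conj_im, mul_neg, Real.sin_neg, abs_neg]
  · intro z h1 h2
    unfold psi11
    rw [b05_psi_off h1 h2, abs_zero]
  · have : {z ∈ DD \ Axs | psi11 z = 0} = ∅ := by
      ext z
      simp only [Set.mem_ofPred_eq, mem_empty_iff_false, iff_false]
      rintro ⟨h1, h2⟩
      exact SS_ne h1 (abs_eq_zero.1 h2)
    rw [this, measure_empty]

theorem b05_exists_e2 : ∃ (e : HH) (c : ℝ), 0 < c ∧ ‖e‖ = 1 ∧
    (∀ᵐ z, fn e z = indicator DD (fun z => c * phi0 z) z) ∧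
    (∀ᵐ z, gr e z = indicator DD (fun z => c • gradient phi0 z) z) ∧
    e ∈ V (DD \ Axs) ∧ ev e = e ∧
    ∀ y ∈ V (DD \ Axs), inner ℝ e y = 5 * Real.pi ^ 2 * ∫ z in DD, fn e z * fn y z := by
  refine b05_norm_elem (F := Fq) (Co_contDiff _ _ _ _ _ _) phi0_eq b05_phi_rot ?_ b05_phi_cont ?_
    b05_phi0_zero (fun φ hφ => phi0_weak hφ)
  · intro z
    unfold phi0
    simp only [conj_re, conj_im, mul_neg, Real.sin_neg, abs_neg, Real.cos_neg]
  · intro z h1 h2
    unfold phi0
    rw [b05_psi_off h1 h2, abs_zero]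
    simp

end Pool.Agent.H87.LE
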