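import Pool.Agent.H58.LE.Quad
import Pool.Agent.H87.LE.B04_Oper
import Pool.Agent.H87.LE.B03_Cap
import Pool.Agent.H87.LE.A15_Expl

open MeasureTheory Complex Set Filter Topology
open scoped ContDiff Laplacian InnerProductSpace

namespace Pool.Agent.H87.LE

/-! # Limits of integrals under `L²` convergence; spectral gap in the limit -/

section
variable {E : Type*} [NormedAddCommGroup E] [InnerProductSpace ℝ E]

theorem b05_inner_toLp {f g : ℂ → E} (hf : MemLp f 2 volume) (hg : MemLp g 2 volume) :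
    inner ℝ (hf.toLp f) (hg.toLp g) = ∫ z, inner ℝ (f z) (g z) := by
  rw [L2.inner_def]
  apply integral_congr_ae
  filter_upwards [hf.coeFn_toLp, hg.coeFn_toLp] with z h1 h2
  rw [h1, h2]

theorem b05_lim_inner {f g : ℕ → ℂ → E} {F G : ℂ → E} (hf : ∀ n, MemLp (f n) 2 volume)
    (hg : ∀ n, MemLp (g n) 2 volume) (hF : MemLp F 2 volume) (hG : MemLp G 2 volume)
    (h1 : Tendsto (fun n => eLpNorm (fun z => f n z - F z) 2 volume) atTop (𝓝 0))
    (h2 : Tendsto (fun n => eLpNorm (fun z => g n z - G z) 2 volume) atTop (𝓝 0)) :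
    Tendsto (fun n => ∫ z, inner ℝ (f n z) (g n z)) atTop (𝓝 (∫ z, inner ℝ (F z) (G z))) := by
  have k1 : Tendsto (fun n => (hf n).toLp (f n)) atTop (𝓝 (hF.toLp F)) :=
    (Lp.tendsto_Lp_iff_tendsto_eLpNorm'' f hf F hF).2 h1
  have k2 : Tendsto (fun n => (hg n).toLp (g n)) atTop (𝓝 (hG.toLp G)) :=
    (Lp.tendsto_Lp_iff_tendsto_eLpNorm'' g hg G hG).2 h2
  have k3 := k1.inner k2 (𝕜 := ℝ)
  rw [b05_inner_toLp hF hG] at k3
  refine k3.congr fun n => ?_
  rw [b05_inner_toLp (hf n) (hg n)]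

theorem b05_lim_inner' {f : ℕ → ℂ → E} {F G : ℂ → E} (hf : ∀ n, MemLp (f n) 2 volume)
    (hF : MemLp F 2 volume) (hG : MemLp G 2 volume)
    (h1 : Tendsto (fun n => eLpNorm (fun z => f n z - F z) 2 volume) atTop (𝓝 0)) :
    Tendsto (fun n => ∫ z, inner ℝ (f n z) (G z)) atTop (𝓝 (∫ z, inner ℝ (F z) (G z))) := by
  refine b05_lim_inner hf (fun _ => hG) hF hG h1 ?_
  simp

end

theorem b05_tst_memLp {Ω : Set ℂ} {φ : ℂ → ℝ} (hφ : Tst Ω φ) : MemLp φ 2 volume :=
  hφ.1.continuous.memLp_of_hasCompactSupport hφ.2.1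

theorem b05_tst_grad {Ω : Set ℂ} {φ : ℂ → ℝ} (hφ : Tst Ω φ) :
    Continuous (gradient φ) ∧ HasCompactSupport (gradient φ) := by
  constructor
  · have h1 : Continuous (fderiv ℝ φ) := hφ.1.continuous_fderiv (by simp)
    exact (InnerProductSpace.toDual ℝ ℂ).symm.continuous.comp h1
  · have h1 : HasCompactSupport (fderiv ℝ φ) := hφ.2.1.fderiv (𝕜 := ℝ)
    exact h1.comp_left (g := (InnerProductSpace.toDual ℝ ℂ).symm) (map_zero _)

theorem b05_tst_grad_memLp {Ω : Set ℂ} {φ : ℂ → ℝ} (hφ : Tst Ω φ) : MemLp (gradient φ) 2 volume :=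
  (b05_tst_grad hφ).1.memLp_of_hasCompactSupport (b05_tst_grad hφ).2

theorem b05_isBounded_DD : Bornology.IsBounded DD := by
  refine (Metric.isBounded_closedBall (x := (0 : ℂ)) (r := 2)).subset ?_
  intro z hz
  rw [mem_closedBall_zero_iff]
  have h := Complex.norm_le_abs_re_add_abs_im z
  have h1 := hz.1
  have h2 := hz.2
  linarith

theorem b05_isOpen_DD : IsOpen DD := by
  have h1 : Continuous fun z : ℂ => |z.re| := continuous_re.abs
  have h2 : Continuous fun z : ℂ => |z.im| := continuous_im.abs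
  exact (isOpen_lt h1 continuous_const).inter (isOpen_lt h2 continuous_const)

theorem b05_isClosed_Axs : IsClosed Axs :=
  isClosed_eq (continuous_re.mul continuous_im) continuous_const

/-- continuous functions restricted to the square are square integrable -/
theorem b05_ind_memLp {g : ℂ → ℝ} (hg : Continuous g) : MemLp (indicator DD g) 2 volume := by
  rw [memLp_indicator_iff_restrict b05_isOpen_DD.measurableSet]
  have hc : IsCompact (closure DD) := b05_isBounded_DD.isCompact_closure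
  obtain ⟨C, hC⟩ := hc.exists_bound_of_continuousOn hg.continuousOn
  have : IsFiniteMeasure (volume.restrict DD) :=
    ⟨by rw [Measure.restrict_apply_univ]; exact b05_isBounded_DD.measure_lt_top⟩
  refine MemLp.of_bound hg.aestronglyMeasurable C ?_
  exact (ae_restrict_iff' b05_isOpen_DD.measurableSet).2
    (Eventually.of_forall fun z hz => hC z (subset_closure hz))

/-- inner products with restrictions to `DD` -/
theorem b05_int_ind {v g : ℂ → ℝ} :
    ∫ z, inner ℝ (v z) (indicator DD g z) = ∫ z in DD, v z * g z := by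
  rw [← integral_indicator b05_isOpen_DD.measurableSet]
  congr 1
  funext z
  by_cases hz : z ∈ DD
  · rw [indicator_of_mem hz, indicator_of_mem hz]
    simp [mul_comm]
  · rw [indicator_of_notMem hz, indicator_of_notMem hz]
    simp

theorem b05_int_tst {Ω : Set ℂ} (hD : Ω ⊆ DD) {φ g : ℂ → ℝ} (hφ : Tst Ω φ) :
    ∫ z, φ z * g z = ∫ z, inner ℝ (φ z) (indicator DD g z) := by
  congr 1
  funext z
  by_cases hz : z ∈ DD
  · rw [indicator_of_mem hz]
    simp [mul_comm]
  · have : φ z = 0 := image_eq_zero_of_notMem_tsupport (fun h => hz (hD (hφ.2.2 h)))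
    rw [this]
    simp

/-- the spectral inequality with remainder in `V (DD \ Axs)` -/
theorem b05_gap {x : HH} (hx : x ∈ V (DD \ Axs)) :
    8 * Real.pi ^ 2 * (∫ z, fn x z ^ 2) ≤ ‖x‖ ^ 2 +
      6 * Real.pi ^ 2 * (∫ z in DD, fn x z * psi11 z) ^ 2 +
      3 / 2 * Real.pi ^ 2 * ((∫ z in DD, fn x z * phi0 z) ^ 2 +
        (∫ z in DD, fn x z * w0 z) ^ 2) := by
  obtain ⟨φ, hφ, hL⟩ := V_approx sdiff_subset hx
  have hv : MemLp (fn x) 2 volume := Lp.memLp _
  have hG : MemLp (gr x) 2 volume := Lp.memLp _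
  have m1 : ∀ n, MemLp (φ n) 2 volume := fun n => b05_tst_memLp (hφ n).1
  have m2 : ∀ n, MemLp (gradient (φ n)) 2 volume := fun n => b05_tst_grad_memLp (hφ n).1
  have t1 := b05_lim_inner m1 m1 hv hv hL.2.2.1 hL.2.2.1
  have t2 := b05_lim_inner m2 m2 hG hG hL.2.2.2 hL.2.2.2
  have t3 := b05_lim_inner' m1 hv (b05_ind_memLp b05_psi_cont) hL.2.2.1
  have t4 := b05_lim_inner' m1 hv (b05_ind_memLp b05_phi_cont) hL.2.2.1
  have t5 := b05_lim_inner' m1 hv (b05_ind_memLp b05_w_cont) hL.2.2.1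
  rw [b05_int_ind] at t3 t4 t5
  have e1 : ∀ v : ℂ → ℝ, ∫ z, inner ℝ (v z) (v z) = ∫ z, v z ^ 2 := by
    intro v; congr 1; funext z; rw [real_inner_self_eq_norm_sq, Real.norm_eq_abs, sq_abs]
  have e2 : ∀ G : ℂ → ℂ, ∫ z, inner ℝ (G z) (G z) = ∫ z, ‖G z‖ ^ 2 := by
    intro v; congr 1; funext z; rw [real_inner_self_eq_norm_sq]
  simp only [e1] at t1
  simp only [e2] at t2
  rw [← norm_HH x] at t2
  have lim_l := t1.const_mul (8 * Real.pi ^ 2)
  have lim_r := (t2.add ((t3.pow 2).const_mul (6 * Real.pi ^ 2))).add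
    (((t4.pow 2).add (t5.pow 2)).const_mul (3 / 2 * Real.pi ^ 2))
  refine le_of_tendsto_of_tendsto' lim_l lim_r fun n => ?_
  have := b05_test (hφ n).1 (hφ n).2
  rw [b05_int_tst sdiff_subset (hφ n).1 (g := psi11), b05_int_tst sdiff_subset (hφ n).1 (g := phi0),
    b05_int_tst sdiff_subset (hφ n).1 (g := w0)] at this
  exact this

end Pool.Agent.H87.LE
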