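import Pool.Agent.H87.LE.A04_Spec

open MeasureTheory Complex Set Filter Topology
open scoped ContDiff Laplacian

namespace Pool.Agent.H87.LE

/-! # Quadrants: rotation invariant test functions off the axes, and the spectral inequality -/

theorem b05_isOpen_QQ : IsOpen QQ := by
  have h1 : Continuous fun z : ℂ => z.re := continuous_re
  have h2 : Continuous fun z : ℂ => z.im := continuous_im
  have : QQ = {z : ℂ | 0 < z.re} ∩ ({z : ℂ | z.re < 1} ∩ ({z : ℂ | 0 < z.im} ∩ {z : ℂ | z.im < 1})) := by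
    ext z; simp [QQ]
  rw [this]
  exact (isOpen_lt continuous_const h1).inter ((isOpen_lt h1 continuous_const).inter
    ((isOpen_lt continuous_const h2).inter (isOpen_lt h2 continuous_const)))

theorem b05_closure_QQ {z : ℂ} (h : z ∈ closure QQ) :
    0 ≤ z.re ∧ z.re ≤ 1 ∧ 0 ≤ z.im ∧ z.im ≤ 1 := by
  have hc : IsClosed {z : ℂ | 0 ≤ z.re ∧ z.re ≤ 1 ∧ 0 ≤ z.im ∧ z.im ≤ 1} := by
    have h1 : Continuous fun z : ℂ => z.re := continuous_re
    have h2 : Continuous fun z : ℂ => z.im := continuous_im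
    exact (isClosed_le continuous_const h1).inter ((isClosed_le h1 continuous_const).inter
      ((isClosed_le continuous_const h2).inter (isClosed_le h2 continuous_const)))
  exact closure_minimal (s := QQ) (fun w hw => by
    obtain ⟨a, b, c, d⟩ := hw
    exact ⟨a.le, b.le, c.le, d.le⟩) hc h

theorem b05_clopen {z : ℂ} (h : z ∈ closure QQ) (h' : z ∈ DD \ Axs) : z ∈ QQ := by
  obtain ⟨a, b, c, d⟩ := b05_closure_QQ h
  obtain ⟨⟨e, f⟩, g⟩ := h'
  have g' : z.re * z.im ≠ 0 := g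
  have h1 : z.re ≠ 0 := left_ne_zero_of_mul g'
  have h2 : z.im ≠ 0 := right_ne_zero_of_mul g'
  rw [abs_lt] at e f
  exact ⟨lt_of_le_of_ne a h1.symm, e.2, lt_of_le_of_ne c h2.symm, f.2⟩

/-- outside `QQ` the indicator vanishes in a neighbourhood -/
theorem b05_ind_loc {φ : ℂ → ℝ} (hφ : Tst (DD \ Axs) φ) (z : ℂ) :
    (z ∈ QQ ∧ indicator QQ φ =ᶠ[𝓝 z] φ) ∨ (z ∉ QQ ∧ indicator QQ φ =ᶠ[𝓝 z] fun _ => 0) := by
  by_cases hz : z ∈ QQ
  · left
    refine ⟨hz, ?_⟩
    filter_upwards [b05_isOpen_QQ.mem_nhds hz] with w hw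
    exact indicator_of_mem hw _
  · right
    refine ⟨hz, ?_⟩
    by_cases hc : z ∈ closure QQ
    · have h1 : z ∉ tsupport φ := fun h => hz (b05_clopen hc (hφ.2.2 h))
      have h2 := (isClosed_tsupport φ).isOpen_compl.mem_nhds h1
      filter_upwards [h2] with w hw
      have : φ w = 0 := image_eq_zero_of_notMem_tsupport hw
      by_cases hq : w ∈ QQ
      · rw [indicator_of_mem hq, this]
      · rw [indicator_of_notMem hq]
    · filter_upwards [isClosed_closure.isOpen_compl.mem_nhds hc] with w hw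
      exact indicator_of_notMem (fun h => hw (subset_closure h)) _

theorem b05_tst_ind {φ : ℂ → ℝ} (hφ : Tst (DD \ Axs) φ) : Tst QQ (indicator QQ φ) := by
  refine ⟨?_, ?_, ?_⟩
  · rw [contDiff_iff_contDiffAt]
    intro z
    rcases b05_ind_loc hφ z with ⟨_, h⟩ | ⟨_, h⟩
    · exact hφ.1.contDiffAt.congr_of_eventuallyEq h
    · exact contDiffAt_const.congr_of_eventuallyEq h
  · exact hφ.2.1.mono' (fun w hw => subset_tsupport φ (by
      intro h0
      apply hw
      by_cases hq : w ∈ QQ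
      · rw [indicator_of_mem hq]; exact h0
      · rw [indicator_of_notMem hq]))
  · intro z hz
    by_contra hq
    rcases b05_ind_loc hφ z with ⟨h, _⟩ | ⟨_, h⟩
    · exact hq h
    · exact (notMem_tsupport_iff_eventuallyEq.2 h) hz

theorem b05_grad_ind {φ : ℂ → ℝ} (hφ : Tst (DD \ Axs) φ) (z : ℂ) :
    gradient (indicator QQ φ) z = indicator QQ (gradient φ) z := by
  rcases b05_ind_loc hφ z with ⟨hz, h⟩ | ⟨hz, h⟩
  · rw [h.gradient_eq, indicator_of_mem hz]
  · rw [h.gradient_eq, indicator_of_notMem hz, gradient_fun_const]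

/-! ## rotations -/

theorem b05_rot_mp : MeasurePreserving (fun z : ℂ => I * z) volume volume := by
  have := (rotation (⟨I, by simp [Submonoid.unitSphere]⟩ : Circle)).measurePreserving
  exact this

theorem b05_rot_emb : MeasurableEmbedding (fun z : ℂ => I * z) :=
  (rotation (⟨I, by simp [Submonoid.unitSphere]⟩ : Circle)).toHomeomorph.measurableEmbedding

theorem b05_set_rot {F : ℂ → ℝ} (hF : ∀ z, F (I * z) = F z) (A : Set ℂ) :
    ∫ z in (fun z : ℂ => I * z) ⁻¹' A, F z = ∫ z in A, F z := by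
  rw [← b05_rot_mp.setIntegral_preimage_emb b05_rot_emb F A]
  exact integral_congr_ae (Eventually.of_forall fun z => (hF z).symm)

/-- quadrants -/
def b05_Q2 : Set ℂ := {z | -1 < z.re ∧ z.re < 0 ∧ 0 < z.im ∧ z.im < 1}
def b05_Q3 : Set ℂ := {z | -1 < z.re ∧ z.re < 0 ∧ -1 < z.im ∧ z.im < 0}
def b05_Q4 : Set ℂ := {z | 0 < z.re ∧ z.re < 1 ∧ -1 < z.im ∧ z.im < 0}

theorem b05_pre2 : (fun z : ℂ => I * z) ⁻¹' b05_Q2 = QQ := by
  ext z; simp only [b05_Q2, QQ, mem_preimage, mem_ofPred_eq, mul_re, mul_im, I_re, I_im]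
  constructor
  · rintro ⟨a, b, c, d⟩; refine ⟨?_, ?_, ?_, ?_⟩ <;> linarith
  · rintro ⟨a, b, c, d⟩; refine ⟨?_, ?_, ?_, ?_⟩ <;> linarith

theorem b05_pre3 : (fun z : ℂ => I * z) ⁻¹' b05_Q3 = b05_Q2 := by
  ext z; simp only [b05_Q2, b05_Q3, mem_preimage, mem_ofPred_eq, mul_re, mul_im, I_re, I_im]
  constructor
  · rintro ⟨a, b, c, d⟩; refine ⟨?_, ?_, ?_, ?_⟩ <;> linarith
  · rintro ⟨a, b, c, d⟩; refine ⟨?_, ?_, ?_, ?_⟩ <;> linarith

theorem b05_pre4 : (fun z : ℂ => I * z) ⁻¹' b05_Q4 = b05_Q3 := by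
  ext z; simp only [b05_Q4, b05_Q3, mem_preimage, mem_ofPred_eq, mul_re, mul_im, I_re, I_im]
  constructor
  · rintro ⟨a, b, c, d⟩; refine ⟨?_, ?_, ?_, ?_⟩ <;> linarith
  · rintro ⟨a, b, c, d⟩; refine ⟨?_, ?_, ?_, ?_⟩ <;> linarith

theorem b05_meas {a b c d : ℝ} :
    MeasurableSet {z : ℂ | a < z.re ∧ z.re < b ∧ c < z.im ∧ z.im < d} := by
  have h1 : Continuous fun z : ℂ => z.re := continuous_re
  have h2 : Continuous fun z : ℂ => z.im := continuous_im
  exact ((isOpen_lt continuous_const h1).inter ((isOpen_lt h1 continuous_const).inter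
    ((isOpen_lt continuous_const h2).inter (isOpen_lt h2 continuous_const)))).measurableSet

theorem b05_meas2 : MeasurableSet b05_Q2 := b05_meas
theorem b05_meas3 : MeasurableSet b05_Q3 := b05_meas
theorem b05_meas4 : MeasurableSet b05_Q4 := b05_meas

theorem b05_union : DD \ Axs = ((QQ ∪ b05_Q2) ∪ b05_Q3) ∪ b05_Q4 := by
  ext z
  simp only [DD, Axs, QQ, b05_Q2, b05_Q3, b05_Q4, Set.mem_sdiff, mem_ofPred_eq, mem_union, abs_lt,
    mul_eq_zero, not_or]
  constructor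
  · rintro ⟨⟨⟨a, b⟩, c, d⟩, e, f⟩
    rcases lt_or_gt_of_ne e with h1 | h1 <;> rcases lt_or_gt_of_ne f with h2 | h2
    · exact Or.inl (Or.inr ⟨a, h1, c, h2⟩)
    · exact Or.inl (Or.inl (Or.inr ⟨a, h1, h2, d⟩))
    · exact Or.inr ⟨h1, b, c, h2⟩
    · exact Or.inl (Or.inl (Or.inl ⟨h1, b, h2, d⟩))
  · rintro (((⟨a, b, c, d⟩ | ⟨a, b, c, d⟩) | ⟨a, b, c, d⟩) | ⟨a, b, c, d⟩)
    · exact ⟨⟨⟨by linarith, b⟩, by linarith, d⟩, a.ne', c.ne'⟩
    · exact ⟨⟨⟨a, by linarith⟩, by linarith, d⟩, b.ne, c.ne'⟩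
    · exact ⟨⟨⟨a, by linarith⟩, c, by linarith⟩, b.ne, d.ne⟩
    · exact ⟨⟨⟨by linarith, b⟩, c, by linarith⟩, a.ne', d.ne⟩

/-- integral of a rotation invariant function over the four quadrants -/
theorem b05_four {F : ℂ → ℝ} (hF : ∀ z, F (I * z) = F z) (hi : Integrable F) :
    ∫ z in DD \ Axs, F z = 4 * ∫ z in QQ, F z := by
  have e2 : ∫ z in b05_Q2, F z = ∫ z in QQ, F z := by
    rw [← b05_set_rot hF b05_Q2, b05_pre2]
  have e3 : ∫ z in b05_Q3, F z = ∫ z in QQ, F z := by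
    rw [← b05_set_rot hF b05_Q3, b05_pre3, e2]
  have e4 : ∫ z in b05_Q4, F z = ∫ z in QQ, F z := by
    rw [← b05_set_rot hF b05_Q4, b05_pre4, e3]
  rw [b05_union, setIntegral_union _ b05_meas4 hi.integrableOn hi.integrableOn,
    setIntegral_union _ b05_meas3 hi.integrableOn hi.integrableOn,
    setIntegral_union _ b05_meas2 hi.integrableOn hi.integrableOn, e2, e3, e4]
  · ring
  · rw [Set.disjoint_left]
    rintro z ⟨_, _, a, _⟩ ⟨_, b, _⟩
    linarith
  · rw [Set.disjoint_left]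
    rintro z (⟨a, _, b, _⟩ | ⟨_, a, b, _⟩) ⟨_, c, _, d⟩ <;> linarith
  · rw [Set.disjoint_left]
    rintro z ((⟨a, _, b, _⟩ | ⟨_, a, b, _⟩) | ⟨_, a, _, b⟩) ⟨c, _, _, d⟩ <;> linarith

theorem b05_four' {F : ℂ → ℝ} (hF : ∀ z, F (I * z) = F z) (hi : Integrable F)
    (h0 : ∀ z, z ∉ DD \ Axs → F z = 0) : ∫ z, F z = 4 * ∫ z in QQ, F z := by
  rw [← b05_four hF hi]
  exact (setIntegral_eq_integral_of_forall_compl_eq_zero h0).symm

theorem b05_norm_grad (φ : ℂ → ℝ) (hR : Rot φ) (z : ℂ) :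
    ‖gradient φ (I * z)‖ = ‖gradient φ z‖ := by
  set L : ℂ ≃ₗᵢ[ℝ] ℂ := rotation (⟨I, by simp [Submonoid.unitSphere]⟩ : Circle) with hL
  have h1 : φ ∘ L = φ := by
    funext w; exact hR w
  have h2 : ‖fderiv ℝ φ (I * z)‖ = ‖fderiv ℝ φ z‖ := by
    have h3 : fderiv ℝ (φ ∘ L) z = (fderiv ℝ φ (L z)).comp (L.toContinuousLinearEquiv : ℂ →L[ℝ] ℂ) := by
      have := L.toContinuousLinearEquiv.comp_right_fderiv (f := φ) (x := z)
      exact this
    rw [h1] at h3
    have h4 : L z = I * z := rfl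
    rw [h4] at h3
    rw [h3]
    exact (ContinuousLinearMap.opNorm_comp_linearIsometryEquiv (fderiv ℝ φ (I * z)) L).symm
  have h5 : ∀ w, ‖gradient φ w‖ = ‖fderiv ℝ φ w‖ := fun w => by
    rw [gradient, LinearIsometryEquiv.norm_map]
  rw [h5, h5, h2]

/-! ## the coefficients -/

theorem b05_psi_rot (z : ℂ) : psi11 (I * z) = psi11 z := by
  have h1 : (I * z).re = -z.im := by simp
  have h2 : (I * z).im = z.re := by simp
  simp only [psi11, h1, h2]
  rw [mul_neg, Real.sin_neg, neg_mul, abs_neg, mul_comm]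

theorem b05_phi_rot (z : ℂ) : phi0 (I * z) = phi0 z := by
  have h1 : (I * z).re = -z.im := by simp
  have h2 : (I * z).im = z.re := by simp
  simp only [phi0, h1, h2]
  rw [mul_neg, Real.sin_neg, neg_mul, abs_neg, Real.cos_neg, mul_comm (Real.sin (Real.pi * z.im)),
    add_comm (Real.cos (Real.pi * z.im))]

theorem b05_w_rot (z : ℂ) : w0 (I * z) = w0 z := by
  have h1 : (I * z).re = -z.im := by simp
  have h2 : (I * z).im = z.re := by simp
  simp only [w0, h1, h2]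
  rw [mul_neg, mul_neg, Real.sin_neg, Real.sin_neg]
  ring

theorem b05_psi_cont : Continuous psi11 := by
  unfold psi11; fun_prop

theorem b05_phi_cont : Continuous phi0 := by
  unfold phi0; fun_prop

theorem b05_w_cont : Continuous w0 := by
  unfold w0; fun_prop

theorem b05_sin_pos {x : ℝ} (h0 : 0 < x) (h1 : x < 1) : 0 < Real.sin (Real.pi * x) := by
  apply Real.sin_pos_of_pos_of_lt_pi
  · positivity
  · nlinarith [Real.pi_pos]

theorem b05_psi_QQ {z : ℂ} (hz : z ∈ QQ) :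
    psi11 z = Real.sin (Real.pi * z.re) * Real.sin (Real.pi * z.im) := by
  obtain ⟨a, b, c, d⟩ := hz
  exact abs_of_pos (mul_pos (b05_sin_pos a b) (b05_sin_pos c d))

theorem b05_sin_two (x : ℝ) : Real.sin (2 * Real.pi * x) =
    2 * Real.sin (Real.pi * x) * Real.cos (Real.pi * x) := by
  rw [mul_assoc, Real.sin_two_mul]

theorem b05_phi_QQ {z : ℂ} (hz : z ∈ QQ) :
    phi0 z = Real.sin (Real.pi * z.re) * Real.sin (2 * Real.pi * z.im) +
      Real.sin (2 * Real.pi * z.re) * Real.sin (Real.pi * z.im) := by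
  have h := b05_psi_QQ hz
  unfold psi11 at h
  unfold phi0
  rw [h, b05_sin_two, b05_sin_two]
  ring

theorem b05_int_mul {φ g : ℂ → ℝ} {Ω : Set ℂ} (hφ : Tst Ω φ) (hg : Continuous g) :
    Integrable (fun z => φ z * g z) :=
  (hφ.1.continuous.mul hg).integrable_of_hasCompactSupport hφ.2.1.mul_right

theorem b05_coef {φ g : ℂ → ℝ} (hφ : Tst (DD \ Axs) φ) (hR : Rot φ) (hg : Continuous g)
    (hgR : ∀ z, g (I * z) = g z) : ∫ z, φ z * g z = 4 * ∫ z in QQ, φ z * g z := by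
  apply b05_four'
  · intro z; rw [hR z, hgR z]
  · exact b05_int_mul hφ hg
  · intro z hz
    have : φ z = 0 := image_eq_zero_of_notMem_tsupport (fun h => hz (hφ.2.2 h))
    rw [this, zero_mul]

theorem b05_meas_QQ : MeasurableSet QQ := b05_isOpen_QQ.measurableSet

theorem b05_cf (φ : ℂ → ℝ) (j k : ℕ) : cf (indicator QQ φ) j k =
    2 * ∫ z in QQ, φ z * (Real.sin (j * Real.pi * z.re) * Real.sin (k * Real.pi * z.im)) := by
  unfold cf
  congr 1
  apply setIntegral_congr_fun b05_meas_QQ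
  intro z hz
  simp only
  rw [indicator_of_mem hz]

theorem b05_test {φ : ℂ → ℝ} (hφ : Tst (DD \ Axs) φ) (hR : Rot φ) :
    8 * Real.pi ^ 2 * (∫ z, φ z ^ 2) ≤ (∫ z, ‖gradient φ z‖ ^ 2) +
      6 * Real.pi ^ 2 * (∫ z, φ z * psi11 z) ^ 2 +
      3 / 2 * Real.pi ^ 2 * ((∫ z, φ z * phi0 z) ^ 2 + (∫ z, φ z * w0 z) ^ 2) := by
  have key := spec_test (b05_tst_ind hφ)
  have h0 : ∀ z, z ∉ DD \ Axs → φ z = 0 := fun z hz =>
    image_eq_zero_of_notMem_tsupport (fun h => hz (hφ.2.2 h))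
  have i1 : ∫ z, φ z ^ 2 = 4 * ∫ z, indicator QQ φ z ^ 2 := by
    have h1 : ∫ z, indicator QQ φ z ^ 2 = ∫ z in QQ, φ z ^ 2 := by
      rw [← integral_indicator b05_meas_QQ]
      congr 1
      funext z
      by_cases hz : z ∈ QQ
      · rw [indicator_of_mem hz, indicator_of_mem hz]
      · rw [indicator_of_notMem hz, indicator_of_notMem hz]; simp
    rw [h1]
    apply b05_four'
    · intro z; rw [hR z]
    · simp only [sq]
      exact (hφ.1.continuous.mul hφ.1.continuous).integrable_of_hasCompactSupport hφ.2.1.mul_right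
    · intro z hz; rw [h0 z hz]; simp
  have hgc : Continuous (gradient φ) := by
    have h1 : Continuous (fderiv ℝ φ) := hφ.1.continuous_fderiv (by simp)
    exact (InnerProductSpace.toDual ℝ ℂ).symm.continuous.comp h1
  have hgs : HasCompactSupport (gradient φ) := by
    have h1 : HasCompactSupport (fderiv ℝ φ) := hφ.2.1.fderiv (𝕜 := ℝ)
    exact h1.comp_left (g := (InnerProductSpace.toDual ℝ ℂ).symm) (map_zero _)
  have i2 : ∫ z, ‖gradient φ z‖ ^ 2 = 4 * ∫ z, ‖gradient (indicator QQ φ) z‖ ^ 2 := by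
    have h1 : ∫ z, ‖gradient (indicator QQ φ) z‖ ^ 2 = ∫ z in QQ, ‖gradient φ z‖ ^ 2 := by
      rw [← integral_indicator b05_meas_QQ]
      congr 1
      funext z
      rw [b05_grad_ind hφ]
      by_cases hz : z ∈ QQ
      · rw [indicator_of_mem hz, indicator_of_mem hz]
      · rw [indicator_of_notMem hz, indicator_of_notMem hz]; simp
    rw [h1]
    apply b05_four'
    · intro z; rw [b05_norm_grad φ hR z]
    · simp only [sq]
      exact (hgc.norm.mul hgc.norm).integrable_of_hasCompactSupport hgs.norm.mul_right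
    · intro z hz
      have h2 : φ =ᶠ[𝓝 z] fun _ => 0 :=
        notMem_tsupport_iff_eventuallyEq.1 (fun h => hz (hφ.2.2 h))
      rw [h2.gradient_eq, gradient_fun_const]; simp
  have c1 := b05_coef hφ hR b05_psi_cont b05_psi_rot
  have c2 := b05_coef hφ hR b05_phi_cont b05_phi_rot
  have c3 := b05_coef hφ hR b05_w_cont b05_w_rot
  have d1 : ∫ z, φ z * psi11 z = 2 * cf (indicator QQ φ) 1 1 := by
    rw [c1, b05_cf, ← mul_assoc]
    norm_num
    apply setIntegral_congr_fun b05_meas_QQ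
    intro z hz
    simp only
    rw [b05_psi_QQ hz]
  have hcont : ∀ j k : ℕ, IntegrableOn (fun z : ℂ => φ z *
      (Real.sin (j * Real.pi * z.re) * Real.sin (k * Real.pi * z.im))) QQ := fun j k =>
    (b05_int_mul hφ (by fun_prop)).integrableOn
  have d2 : ∫ z, φ z * phi0 z = 2 * (cf (indicator QQ φ) 1 2 + cf (indicator QQ φ) 2 1) := by
    rw [c2, b05_cf, b05_cf, ← mul_add, ← integral_add (hcont 1 2) (hcont 2 1), ← mul_assoc]
    norm_num
    apply setIntegral_congr_fun b05_meas_QQ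
    intro z hz
    simp only
    rw [b05_phi_QQ hz]
    ring
  have d3 : ∫ z, φ z * w0 z = 2 * (cf (indicator QQ φ) 1 2 - cf (indicator QQ φ) 2 1) := by
    rw [c3, b05_cf, b05_cf, ← mul_sub, ← integral_sub (hcont 1 2) (hcont 2 1), ← mul_assoc]
    norm_num
    apply setIntegral_congr_fun b05_meas_QQ
    intro z hz
    simp only
    rw [w0]
    ring
  rw [i1, i2, d1, d2, d3]
  nlinarith [key]

end Pool.Agent.H87.LE
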